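import Pool.Agent.H21.GS.Final

/-!
# The Turan numbers of generalised stars of arbitrary uniformity: the last blocks
-/

set_option autoImplicit false

namespace Pool.Agent.Results.MP_754fe6_co.AllUniformities

open Pool.Agent.H21.Star Pool.Agent.H21.GS

/-- **Bounds for `ex(n, St_r(d_1, …, d_(r-1)))` for every uniformity `r`, and the order of magnitude when
the last blocks dominate.** For all `r` and `K` there is a constant `C` such that for all `n` and all
positive integers `d_1, …, d_(r-1)`:

* if `n < r`, then `ex = 0`, and if `r ≤ n`, then `min (n ^ r) L ≤ C * ex`, where `L` is the sum over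
  `t = 1, …, r - 1` of `n ^ t * (d_t * ⋯ * d_(r-1) - 1) ^ (r - t)`;
* `ex ≤ C * min (n ^ r) U`, where `U` is the sum of `n ^ (r - m) * (W - 1) ^ m` over all blocks of
  consecutive entries, `m` the number and `W` the product of the entries of the block;
* if `W - 1 ≤ K (P - 1)` for each block, `P` the product of the last `m` entries, then
  `ex ≤ C * min (n ^ r) L`;
* in particular this holds if `d_1 ≤ d_2 ≤ ⋯ ≤ d_(r-1)`. -/
theorem result (r K : ℕ) : ∃ C : ℕ, 0 < C ∧ ∀ (n : ℕ) (ds : List ℕ), ds.length + 1 = r →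
    (∀ d ∈ ds, 1 ≤ d) →
    (n < r → ex n ds = 0) ∧
    (r ≤ n → min (n ^ r) (lowerSum n ds) ≤ C * ex n ds) ∧
    ex n ds ≤ C * min (n ^ r) (upperSum n ds) ∧
    (Dominated K ds → ex n ds ≤ C * min (n ^ r) (lowerSum n ds)) ∧
    (ds.Pairwise (· ≤ ·) → ex n ds ≤ C * min (n ^ r) (lowerSum n ds)) := by
  refine ⟨(r - 1) * C1 r + C2 (r - 1) + C2 (r - 1) * ((r - 1) * ((r - 1) * (K + 1) ^ (r - 1)) + 1) +
    C2 (r - 1) * ((r - 1) * ((r - 1) * (1 + 1) ^ (r - 1)) + 1), ?_, ?_⟩
  · have : 0 < C2 (r - 1) := Nat.succ_pos _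
    omega
  · rintro n ds rfl hds
    simp only [Nat.add_sub_cancel]
    refine ⟨?_, ?_, ?_, ?_, ?_⟩
    · intro hn
      refine Nat.le_zero.1 (ex_le fun F hF _ => ?_)
      have h1 : F ⊆ Finset.powersetCard (ds.length + 1) Finset.univ := fun e he =>
        Finset.mem_powersetCard.2 ⟨Finset.subset_univ _, hF e he⟩
      refine (Finset.card_le_card h1).trans ?_
      rw [Finset.card_powersetCard, Finset.card_univ, Fintype.card_fin, Nat.choose_eq_zero_of_lt hn]
    · intro hn
      refine (lower_le hds hn).trans (Nat.mul_le_mul_right _ ?_)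
      omega
    · refine (upper_le n hds).trans (Nat.mul_le_mul_right _ ?_)
      omega
    · intro hK
      refine (dominated_le hds hK).trans (Nat.mul_le_mul_right _ ?_)
      omega
    · intro hK
      refine (dominated_le hds (dominated_of_pairwise hK)).trans (Nat.mul_le_mul_right _ ?_)
      omega

end Pool.Agent.Results.MP_754fe6_co.AllUniformities
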