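import Pool.Agent.H21.Star.Final

/-!
# The Turan numbers of generalised stars: the case `r = 4`
-/

set_option autoImplicit false

namespace Pool.Agent.Results.MP_754fe6_co.FourUniform

open Pool.Agent.H21.Star

/-- **The order of magnitude of `ex(n, St_4(a, b, c))` for all `n, a, b, c`.** There are constants
`A, B > 0` such that for all positive integers `a, b, c` and all `n`:

* if `n < 4` or `a b c = 1`, then `ex(n, St_4(a, b, c)) = 0`;
* otherwise `ex(n, St_4(a, b, c))` is between `m / A` and `B m`, where `m` is the minimum of `n ^ 4` and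
  `(c - 1) n ^ 3 + (b ^ 2 c ^ 2 + a ^ 2 b) n ^ 2 + a ^ 3 b ^ 3 c ^ 3 n`;
* if `n` is less than the number `1 + a + a b + a b c` of vertices of `St_4(a, b, c)`, then
  `ex(n, St_4(a, b, c)) = n.choose 4`, and otherwise the minimum can be replaced by its second term. -/
theorem result : ∃ A B : ℕ, 0 < A ∧ 0 < B ∧ ∀ n a b c : ℕ, 1 ≤ a → 1 ≤ b → 1 ≤ c →
    (n < 4 ∨ a * b * c = 1 → ex n [a, b, c] = 0) ∧
    (4 ≤ n → 2 ≤ a * b * c →
      min (n ^ 4) ((c - 1) * n ^ 3 + (b ^ 2 * c ^ 2 + a ^ 2 * b) * n ^ 2 + a ^ 3 * b ^ 3 * c ^ 3 * n)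
        ≤ A * ex n [a, b, c] ∧
      ex n [a, b, c] ≤ B * min (n ^ 4)
        ((c - 1) * n ^ 3 + (b ^ 2 * c ^ 2 + a ^ 2 * b) * n ^ 2 + a ^ 3 * b ^ 3 * c ^ 3 * n)) ∧
    (n < 1 + a + a * b + a * b * c → ex n [a, b, c] = n.choose 4) ∧
    (1 + a + a * b + a * b * c ≤ n → 2 ≤ a * b * c →
      (c - 1) * n ^ 3 + (b ^ 2 * c ^ 2 + a ^ 2 * b) * n ^ 2 + a ^ 3 * b ^ 3 * c ^ 3 * n
        ≤ A * ex n [a, b, c]) := by
  refine ⟨50000, 100000000000, by norm_num, by norm_num, fun n a b c ha hb hc => ⟨?_, ?_, ?_, ?_⟩⟩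
  · rintro (h | h)
    · have := ex_le_choose n a b c
      rw [Nat.choose_eq_zero_of_lt h] at this
      omega
    · have h1 := Nat.eq_one_of_mul_eq_one_right h
      have h2 := Nat.eq_one_of_mul_eq_one_left h
      have h3 := Nat.eq_one_of_mul_eq_one_right h1
      have h4 := Nat.eq_one_of_mul_eq_one_left h1
      subst h2; subst h3; subst h4
      exact ex_one n
  · exact fun hn h2 => ⟨min_le_ex ha hb hc h2 hn, ex_le_min ha hb hc⟩
  · exact ex_eq_choose ha hb hc
  · exact fun hn h2 => g_le_ex ha hb hc h2 hn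

end Pool.Agent.Results.MP_754fe6_co.FourUniform
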