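import Pool.Agent.H21.GS.Large4

/-!
# The Turan numbers of generalised stars: all block sizes, large `n`
-/

set_option autoImplicit false

namespace Pool.Agent.Results.MP_754fe6_co.LargeN

open Pool.Agent.H21.Star Pool.Agent.H21.GS

/-- **A two term bound for all generalised stars, and the order of magnitude for large `n`.** For all
`r ≥ 3` and `K` there is a constant `C` such that for all `n` and all positive integers
`d_1, …, d_(r-3)` (the list `ds`), `c = d_(r-2)` and `d = d_(r-1)`, with the number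
`D = d_1 * ⋯ * d_(r-1)` of edges and `ex = ex(n, St_r(d_1, …, d_(r-1)))`:

* `ex ≤ C * (n ^ (r - 1) * (d - 1) + n ^ (r - 2) * (D - 1) ^ 2)`;
* if `r ≤ n`, then `min (n ^ r) (n ^ (r - 1) * (d - 1) + n ^ (r - 2) * (c * d - 1) ^ 2) ≤ C * ex`;
* if `(D - 1) ^ 2 ≤ K * (n * (d - 1) + (c * d - 1) ^ 2)`, then
  `ex ≤ C * min (n ^ r) (n ^ (r - 1) * (d - 1) + n ^ (r - 2) * (c * d - 1) ^ 2)`;
* this holds for all `n` if `d_1 * ⋯ * d_(r-3) ≤ K` and `2 ≤ c * d`;
* if `(D - 1) ^ 2 ≤ K * (n * (d - 1))` and `r ≤ n`, then `ex` is between `n ^ (r - 1) * (d - 1) / C` and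
  `C * (n ^ (r - 1) * (d - 1))`. -/
theorem result (r K : ℕ) : ∃ C : ℕ, 0 < C ∧ ∀ (n : ℕ) (ds : List ℕ) (c d : ℕ), ds.length + 3 = r →
    (∀ x ∈ ds, 1 ≤ x) → 1 ≤ c → 1 ≤ d →
    ex n (ds ++ [c, d]) ≤
      C * (n ^ (r - 1) * (d - 1) + n ^ (r - 2) * (ds.prod * c * d - 1) ^ 2) ∧
    (r ≤ n → min (n ^ r) (n ^ (r - 1) * (d - 1) + n ^ (r - 2) * (c * d - 1) ^ 2) ≤
      C * ex n (ds ++ [c, d])) ∧
    ((ds.prod * c * d - 1) ^ 2 ≤ K * (n * (d - 1) + (c * d - 1) ^ 2) →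
      ex n (ds ++ [c, d]) ≤
        C * min (n ^ r) (n ^ (r - 1) * (d - 1) + n ^ (r - 2) * (c * d - 1) ^ 2)) ∧
    (ds.prod ≤ K → 2 ≤ c * d →
      ex n (ds ++ [c, d]) ≤
        C * min (n ^ r) (n ^ (r - 1) * (d - 1) + n ^ (r - 2) * (c * d - 1) ^ 2)) ∧
    (r ≤ n → (ds.prod * c * d - 1) ^ 2 ≤ K * (n * (d - 1)) →
      n ^ (r - 1) * (d - 1) ≤ C * ex n (ds ++ [c, d]) ∧
      ex n (ds ++ [c, d]) ≤ C * (n ^ (r - 1) * (d - 1))) := by
  rcases Nat.lt_or_ge r 3 with hr | hr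
  · exact ⟨1, one_pos, fun n ds c d h => by omega⟩
  obtain ⟨m, rfl⟩ : ∃ m, r = m + 3 := ⟨r - 3, by omega⟩
  obtain ⟨C, hC, h⟩ := two_main m K
  obtain ⟨C', hC', h'⟩ := two_main m (4 * K ^ 2)
  refine ⟨C * (K + 1) + C', by positivity, ?_⟩
  intro n ds c d hlen hds hc hd
  obtain ⟨h1, h2, h3⟩ := h n ds c d (by omega) hds hc hd
  obtain ⟨_, _, h4⟩ := h' n ds c d (by omega) hds hc hd
  have e1 : m + 3 - 1 = m + 2 := rfl
  have e2 : m + 3 - 2 = m + 1 := rfl
  rw [e1, e2]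
  have hCC : C ≤ C * (K + 1) + C' := by nlinarith
  refine ⟨h1.trans (Nat.mul_le_mul_right _ hCC), fun hn => (h2 hn).trans (Nat.mul_le_mul_right _ hCC),
    fun hK => (h3 hK).trans (Nat.mul_le_mul_right _ hCC), fun hK hcd => ?_, fun hn hK => ⟨?_, ?_⟩⟩
  · refine (h4 ?_).trans (Nat.mul_le_mul_right _ (by omega))
    have h5 : ds.prod * c * d - 1 ≤ 2 * K * (c * d - 1) := by
      have h6 : ds.prod * c * d ≤ K * (c * d) := by
        rw [mul_assoc]
        exact Nat.mul_le_mul_right _ hK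
      have h7 : K * (c * d) ≤ K * (2 * (c * d - 1)) := Nat.mul_le_mul_left _ (by omega)
      calc ds.prod * c * d - 1 ≤ ds.prod * c * d := Nat.sub_le _ _
        _ ≤ K * (2 * (c * d - 1)) := h6.trans h7
        _ = _ := by ring
    calc (ds.prod * c * d - 1) ^ 2 ≤ (2 * K * (c * d - 1)) ^ 2 := Nat.pow_le_pow_left h5 2
      _ = 4 * K ^ 2 * (c * d - 1) ^ 2 := by ring
      _ ≤ _ := Nat.mul_le_mul_left _ (Nat.le_add_left _ _)
  · have h5 : n ^ (m + 2) * (d - 1) ≤ (K + 1) * min (n ^ (m + 3))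
        (n ^ (m + 2) * (d - 1) + n ^ (m + 1) * (c * d - 1) ^ 2) := by
      have h6 : d - 1 ≤ K * n := by
        rcases Nat.eq_zero_or_pos (d - 1) with h0 | h0
        · omega
        · have h7 : d - 1 ≤ ds.prod * c * d - 1 := by
            have h8 : 0 < ds.prod * c :=
              Nat.mul_pos (List.prod_pos fun a ha => hds a ha) hc
            have h9 : 1 * d ≤ ds.prod * c * d := Nat.mul_le_mul_right _ h8
            omega
          have h8 : (d - 1) ^ 2 ≤ K * (n * (d - 1)) := (Nat.pow_le_pow_left h7 2).trans hK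
          refine Nat.le_of_mul_le_mul_right (a := d - 1) ?_ h0
          calc (d - 1) * (d - 1) = (d - 1) ^ 2 := (sq _).symm
            _ ≤ _ := h8
            _ = K * n * (d - 1) := by ring
      rcases Nat.le_total (n ^ (m + 3)) (n ^ (m + 2) * (d - 1) + n ^ (m + 1) * (c * d - 1) ^ 2) with h | h
      · rw [min_eq_left h]
        calc n ^ (m + 2) * (d - 1) ≤ n ^ (m + 2) * (K * n) := Nat.mul_le_mul_left _ h6
          _ = K * n ^ (m + 3) := by ring
          _ ≤ _ := Nat.mul_le_mul_right _ (by omega)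
      · rw [min_eq_right h]
        nlinarith [Nat.zero_le (n ^ (m + 1) * (c * d - 1) ^ 2), Nat.zero_le (n ^ (m + 2) * (d - 1))]
    calc _ ≤ _ := h5
      _ ≤ (K + 1) * (C * ex n (ds ++ [c, d])) := Nat.mul_le_mul_left _ (h2 hn)
      _ = C * (K + 1) * ex n (ds ++ [c, d]) := by ring
      _ ≤ _ := Nat.mul_le_mul_right _ (by omega)
  · have h5 : n ^ (m + 2) * (d - 1) + n ^ (m + 1) * (ds.prod * c * d - 1) ^ 2 ≤
        (K + 1) * (n ^ (m + 2) * (d - 1)) := by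
      calc _ ≤ n ^ (m + 2) * (d - 1) + n ^ (m + 1) * (K * (n * (d - 1))) :=
            Nat.add_le_add_left (Nat.mul_le_mul_left _ hK) _
        _ = _ := by ring
    calc _ ≤ _ := h1
      _ ≤ C * ((K + 1) * (n ^ (m + 2) * (d - 1))) := Nat.mul_le_mul_left _ h5
      _ = C * (K + 1) * (n ^ (m + 2) * (d - 1)) := by ring
      _ ≤ _ := Nat.mul_le_mul_right _ (by omega)

end Pool.Agent.Results.MP_754fe6_co.LargeN
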