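import Pool.Agent.H21.GS.Last3

/-!
# The Turan numbers of generalised stars: the last entries
-/

set_option autoImplicit false

namespace Pool.Agent.Results.MP_754fe6_co.LastEntries

open Pool.Agent.H21.Star Pool.Agent.H21.GS

/-- **The order of magnitude of `ex(n, St_r(1, …, 1, d_(r-t), …, d_(r-1)))`.** There is a function `R` with
`R 1 = 2`, `R 2 = 3` and `R 3 = 5` such that for all `t ≥ 1`, `r ≥ R t` and `K` there is a constant `C` such
that for all `n` and all positive integers `d_1, …, d_(r-1)` the following holds. Let `ls` be the list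
`d_1, …, d_(r-1-t)` and `ds` the list `d_(r-t), …, d_(r-1)`, let `P_i` be the product of the last `i`
entries, `D = P_(r-1)`, and `S = lastSum n r ds` the sum over `i = 1, …, t` of `n ^ (r - i) * (P_i - 1) ^ i`.
Let `B = n ^ t * upperSum n ls`, which is the sum of `n ^ (r - m) * (W - 1) ^ m` over all blocks of
consecutive entries of `ls`, `m` the number and `W` the product of the entries of the block.

* `ex ≤ C * (S + n ^ (r - t) * (D - 1) ^ t + B)`;
* if `r ≤ n`, then `min (n ^ r) S ≤ C * ex`;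
* if `n ^ (r - t) * (D - 1) ^ t + B ≤ K * S`, then `ex ≤ C * min (n ^ r) S`;
* this holds if `d_1 = ⋯ = d_(r-1-t) = 1`;
* this holds if `d_1 * ⋯ * d_(r-1-t) ≤ K` and `2 ≤ d_(r-1)`. -/
theorem result : ∃ R : ℕ → ℕ, R 1 = 2 ∧ R 2 = 3 ∧ R 3 = 5 ∧
    ∀ t r K : ℕ, 1 ≤ t → R t ≤ r → ∃ C : ℕ, 0 < C ∧
      ∀ (n : ℕ) (ls ds : List ℕ), ds.length = t → ls.length + t + 1 = r →
        (∀ x ∈ ls ++ ds, 1 ≤ x) →
        ex n (ls ++ ds) ≤ C * (lastSum n r ds + n ^ (r - t) * ((ls ++ ds).prod - 1) ^ t +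
          n ^ t * upperSum n ls) ∧
        (r ≤ n → min (n ^ r) (lastSum n r ds) ≤ C * ex n (ls ++ ds)) ∧
        (n ^ (r - t) * ((ls ++ ds).prod - 1) ^ t + n ^ t * upperSum n ls ≤ K * lastSum n r ds →
          ex n (ls ++ ds) ≤ C * min (n ^ r) (lastSum n r ds)) ∧
        ((∀ x ∈ ls, x = 1) → ex n (ls ++ ds) ≤ C * min (n ^ r) (lastSum n r ds)) ∧
        (ls.prod ≤ K → 2 ≤ lastProd ds 1 → ex n (ls ++ ds) ≤ C * min (n ^ r) (lastSum n r ds)) := by
  obtain ⟨R, h1, h2, h3, hR⟩ := chain_all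
  refine ⟨R, h1, h2, h3, fun t r K ht hr => ?_⟩
  obtain ⟨C, hC, h⟩ := last_main t r
    (K + 1 + ((2 * K) ^ t + r * (r * (K + 1) ^ r))) ht (hR t r ht hr)
  refine ⟨C, hC, fun n ls ds hds hlen hpos => ?_⟩
  obtain ⟨a1, a2, a3⟩ := h n ls ds hds hlen hpos
  refine ⟨a1, a2, fun hK => a3 (hK.trans (Nat.mul_le_mul_right _ (by omega))), fun hls => ?_,
    fun hK hd => ?_⟩
  · exact a3 ((cond_one n t r ht hds hls).trans (Nat.mul_le_mul_right _ (by omega)))
  · exact a3 ((cond_bdd n t r K ht hds hlen hpos hK hd).trans (Nat.mul_le_mul_right _ (by omega)))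

end Pool.Agent.Results.MP_754fe6_co.LastEntries
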